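import Mathlib
import Pool.Agent.H11.FG.Main
import Pool.Agent.H16.BV.Main
import Pool.Agent.H16.BX.Closure
import Pool.Agent.H16.BX.Homol
import Pool.Agent.H96.CX.Comp

/-!
MP_c13a79_gt: the assembly map `A : L_*(Bπ) → L_*(ℤπ)` of Poincaré duality groups is an isomorphism
for all of them if and only if the groups `L_0(ℤπ)` are finitely generated for all of them; with 2
inverted one can replace `L_0(ℤπ)` by the group `L_0(ℝπ)` of the group algebra over the real numbers.
-/

set_option autoImplicit false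

namespace Pool.Agent.Results.MP_c13a79_gt.FinitelyGenerated

open CategoryTheory Function TensorProduct Pool.Agent.H16.BB Pool.Agent.H16.BV Pool.Agent.H11.FG
open Pool.Agent.H17.LTh (L0 GR)
open Pool.Agent.H96.CX (TwoIso)

universe u

/-- `A` is an isomorphism at `X` in all degrees. -/
def Iso {h L : Fun.{u}} (A : Trans h L) (X : OGrp) : Prop := ∀ n, Bijective (A.app n X)

/-- The map `h ⊗ R → L ⊗ R` given by `A` is an isomorphism at `X` in all degrees. -/
def IsoR (R : Type) [CommRing R] {h L : Fun.{u}} (A : Trans h L) (X : OGrp) : Prop :=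
  ∀ n, Bijective ((A.app n X).hom.toIntLinearMap.baseChange R)

/-- The `R`-module `M ⊗ R` is finitely generated. -/
def FG (R : Type) [CommRing R] (M : Type u) [AddCommGroup M] : Prop := Module.Finite R (R ⊗[ℤ] M)

/-- `S` is the cofibre of `A : h → L`: there is a long exact sequence
`h_{n+1} → L_{n+1} → S_{n+1} → h_n → L_n` with the maps `A`, `q`, `b`, `A`. -/
structure Cofibre {h L S : Fun.{u}} (A : Trans h L) (q : Trans L S)
    (b : ∀ n X, Hm (S.obj (n + 1) X) (h.obj n X)) : Prop where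
  exact_L : ∀ n X y, q.app n X y = 0 ↔ ∃ x, A.app n X x = y
  exact_S : ∀ n X s, b n X s = 0 ↔ ∃ y, q.app (n + 1) X y = s
  exact_h : ∀ n X x, A.app n X x = 0 ↔ ∃ s, b n X s = x

/-- Known facts on `h`, the homology theory of the surgery spectrum, `L`, the `L`-groups, `A`, the
assembly map, and `S`, the structure groups. -/
structure Assembly {h L S : Fun.{u}} (A : Trans h L) (q : Trans L S)
    (b : ∀ n X, Hm (S.obj (n + 1) X) (h.obj n X)) : Prop where
  cofibre : Cofibre A q b
  /-- the homology groups of finitely dominated complexes are finitely generated -/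
  fin : ∀ (n : ℤ) (X : OGrp), FPres X.G → Module.Finite ℤ (h.obj n X)
  /-- four-fold periodicity -/
  per : ∀ (n : ℤ) (X : OGrp), ∃ s : Hm (L.obj (n + 4) X) (L.obj n X), Bijective s
  /-- Shaneson splitting for `X × ℤ` -/
  split : ∀ (n : ℤ) (X : OGrp), ∃ s : Hm (L.obj n X) (L.obj (n + 1) X.timesZ), Injective s
  /-- the middle term of the Mayer-Vietoris sequence of an amalgamated product -/
  amalgam : ∀ {Y X₁ X₂ Z : OGrp} {i : Y ⟶ X₁} {j : Y ⟶ X₂} {k₁ : X₁ ⟶ Z} {k₂ : X₂ ⟶ Z},
    IsPushout i j k₁ k₂ → Injective i.f → Injective j.f → Mid S i j k₁ k₂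
  /-- the Farrell-Jones conjecture for subgroups of right-angled Artin groups -/
  raag : ∀ (V : Type) [Finite V] (Γ : SimpleGraph V) (X : OGrp) (f : X.G →* RAAG Γ),
    Injective f → Iso A X

/-- The group acts freely and cocompactly on a connected, simply connected and acyclic flag complex,
so it has a finite classifying space. -/
def FiniteB (X : OGrp) : Prop := ∃ D : Datum X.G, Good D

/-- The theorem of Davis (reflection group trick): every finitely presented group of type FP with a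
character is a retract of a Poincaré duality group with a finite classifying space. -/
def Davis : Prop :=
  ∀ X : OGrp, FPres X.G → ∃ P, PD P ∧ FiniteB P ∧ Nonempty (Retract X P)

/-- Known facts on homology isomorphisms of groups. -/
structure KanThurston {h L : Fun.{u}} (A : Trans h L) : Prop where
  /-- the Künneth theorem for an acyclic factor -/
  kunneth : ∀ (G K : Type) [Group G] [Group K], AcyclicGrp K → HEqv (MonoidHom.fst G K)
  /-- the Mayer-Vietoris sequence of an amalgamated product -/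
  excision : ∀ {Y X₁ X₂ Z : OGrp} {i : Y ⟶ X₁} {j : Y ⟶ X₂} {k₁ : X₁ ⟶ Z} {k₂ : X₂ ⟶ Z},
    IsPushout i j k₁ k₂ → Injective i.f → Injective j.f → HEqv i.f → HEqv k₂.f
  /-- the Kan-Thurston theorem with CAT(0) groups, and the Farrell-Jones conjecture for them -/
  cover : ∀ X : OGrp, FiniteB X → X.w = 1 →
    ∃ (H K : OGrp) (f : H ⟶ X) (c : H ⟶ K), FPres H.G ∧ FPres K.G ∧ HEqv f.f ∧ Injective c.f ∧
      K.w = 1 ∧ AcyclicGrp K.G ∧ Iso A H

/-! ### Pushouts of groups with characters -/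

section Pushout

variable {Y X₁ X₂ : OGrp} (i : Y ⟶ X₁) (j : Y ⟶ X₂)

/-- The relations of the amalgamated product. -/
def rels : Subgroup (Monoid.Coprod X₁.G X₂.G) :=
  Subgroup.normalClosure (Set.range fun y : Y.G =>
    (Monoid.Coprod.inl (i.f y) : Monoid.Coprod X₁.G X₂.G) * (Monoid.Coprod.inr (j.f y))⁻¹)

instance : (rels i j).Normal := Subgroup.normalClosure_normal

theorem rels_le {K : Type} [Group K] (a : X₁.G →* K) (b : X₂.G →* K)
    (hab : a.comp i.f = b.comp j.f) : rels i j ≤ (Monoid.Coprod.lift a b).ker := by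
  refine Subgroup.normalClosure_le_normal ?_
  rintro _ ⟨y, rfl⟩
  rw [SetLike.mem_coe, MonoidHom.mem_ker, map_mul, map_inv, Monoid.Coprod.lift_apply_inl,
    Monoid.Coprod.lift_apply_inr, mul_inv_eq_one]
  exact DFunLike.congr_fun hab y

/-- The amalgamated product. -/
def amal : OGrp :=
  ⟨Monoid.Coprod X₁.G X₂.G ⧸ rels i j,
    QuotientGroup.lift (rels i j) (Monoid.Coprod.lift X₁.w X₂.w)
      (rels_le i j X₁.w X₂.w (i.w_f.trans j.w_f.symm))⟩

/-- The first inclusion. -/
def ain₁ : X₁ ⟶ amal i j :=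
  OGrp.Hom.mk ((QuotientGroup.mk' (rels i j)).comp Monoid.Coprod.inl)
    (MonoidHom.ext fun x => Monoid.Coprod.lift_apply_inl X₁.w X₂.w x)

/-- The second inclusion. -/
def ain₂ : X₂ ⟶ amal i j :=
  OGrp.Hom.mk ((QuotientGroup.mk' (rels i j)).comp Monoid.Coprod.inr)
    (MonoidHom.ext fun x => Monoid.Coprod.lift_apply_inr X₁.w X₂.w x)

theorem isPushout : IsPushout i j (ain₁ i j) (ain₂ i j) := by
  have hw : i ≫ ain₁ i j = j ≫ ain₂ i j := by
    refine OGrp.Hom.ext ?_
    ext y
    change (QuotientGroup.mk' (rels i j)) (Monoid.Coprod.inl (i.f y)) =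
      (QuotientGroup.mk' (rels i j)) (Monoid.Coprod.inr (j.f y))
    rw [QuotientGroup.mk'_apply, QuotientGroup.mk'_apply, QuotientGroup.eq]
    have h1 : (Monoid.Coprod.inl (i.f y) : Monoid.Coprod X₁.G X₂.G) *
        (Monoid.Coprod.inr (j.f y))⁻¹ ∈ rels i j :=
      Subgroup.subset_normalClosure ⟨y, rfl⟩
    have h2 := (inferInstance : (rels i j).Normal).conj_mem _ ((rels i j).inv_mem h1)
      (Monoid.Coprod.inl (i.f y))⁻¹
    simpa [mul_assoc] using h2
  refine ⟨⟨hw⟩, ⟨Limits.PushoutCocone.IsColimit.mk hw ?_ ?_ ?_ ?_⟩⟩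
  · intro s
    have hs : s.inl.f.comp i.f = s.inr.f.comp j.f := congrArg OGrp.Hom.f s.condition
    refine OGrp.Hom.mk (QuotientGroup.lift (rels i j) (Monoid.Coprod.lift s.inl.f s.inr.f)
      (rels_le i j _ _ hs)) ?_
    apply QuotientGroup.monoidHom_ext
    apply Monoid.Coprod.hom_ext
    · exact MonoidHom.ext fun x => (congrArg s.pt.w
        (Monoid.Coprod.lift_apply_inl s.inl.f s.inr.f x)).trans
        ((DFunLike.congr_fun s.inl.w_f x).trans
        (Monoid.Coprod.lift_apply_inl X₁.w X₂.w x).symm)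
    · exact MonoidHom.ext fun x => (congrArg s.pt.w
        (Monoid.Coprod.lift_apply_inr s.inl.f s.inr.f x)).trans
        ((DFunLike.congr_fun s.inr.w_f x).trans
        (Monoid.Coprod.lift_apply_inr X₁.w X₂.w x).symm)
  · intro s
    refine OGrp.Hom.ext ?_
    ext x
    rfl
  · intro s
    refine OGrp.Hom.ext ?_
    ext x
    rfl
  · intro s m h1 h2
    refine OGrp.Hom.ext ?_
    apply QuotientGroup.monoidHom_ext
    apply Monoid.Coprod.hom_ext
    · ext x
      exact DFunLike.congr_fun (congrArg OGrp.Hom.f h1) x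
    · ext x
      exact DFunLike.congr_fun (congrArg OGrp.Hom.f h2) x

end Pushout

section Basic

variable {h L S : Fun.{u}} {A : Trans h L} {q : Trans L S}
  {b : ∀ n X, Hm (S.obj (n + 1) X) (h.obj n X)}

theorem S_zero (hA : Cofibre A q b) {X : OGrp} (hX : Iso A X) (n : ℤ) (s : S.obj n X) : s = 0 := by
  obtain ⟨m, rfl⟩ : ∃ m, n = m + 1 := ⟨n - 1, by ring⟩
  have h1 : A.app m X (b m X s) = 0 := (hA.exact_h m X _).2 ⟨s, rfl⟩
  have h2 : b m X s = 0 := (hX m).1 (by rw [h1, hm_zero])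
  obtain ⟨y, rfl⟩ := (hA.exact_S m X s).1 h2
  exact (hA.exact_L _ X y).2 ((hX (m + 1)).2 y)

theorem Fun.injective_of_retract (E : Fun.{u}) {X P : OGrp} (r : Retract X P) (n : ℤ) :
    Injective (E.map n r.i).f := by
  intro x y hxy
  have h1 : ∀ z, E.map n r.r (E.map n r.i z) = z := fun z => by
    rw [← E.map_comp, r.retract, E.map_id]
  rw [← h1 x, ← h1 y]
  exact congrArg _ hxy

section Ring

variable {R : Type} [CommRing R] [IsNoetherianRing R] [Module.Flat ℤ R]

theorem FG.of_inj {M N : Type u} [AddCommGroup M] [AddCommGroup N] (s : Hm M N) (hs : Injective s.f)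
    (hN : FG R N) : FG R M := by
  have : Module.Finite R (R ⊗[ℤ] N) := hN
  exact finite_of_injective R (lin s) hs

theorem FG.of_ex {M N P : Type u} [AddCommGroup M] [AddCommGroup N] [AddCommGroup P]
    (s : Hm M N) (t : Hm N P) (h : ∀ y, t y = 0 ↔ ∃ x, s x = y) (hM : FG R M) (hP : FG R P) :
    FG R N := by
  unfold FG at *
  have h1 : Function.Exact (lin s) (lin t) := fun y => h y
  have h2 : Function.Exact ((lin s).baseChange R) ((lin t).baseChange R) := fun y =>
    Module.Flat.lTensor_exact R h1 y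
  have h3 : (LinearMap.ker ((lin t).baseChange R)).FG := by
    rw [LinearMap.exact_iff.1 h2, ← Module.Finite.iff_fg]
    infer_instance
  have : IsNoetherian R (R ⊗[ℤ] P) := isNoetherian_of_isNoetherianRing_of_finite R _
  exact ⟨Submodule.fg_of_fg_map_of_fg_inf_ker ((lin t).baseChange R)
    (IsNoetherian.noetherian _) (by rwa [top_inf_eq])⟩

omit [IsNoetherianRing R] in
theorem isoR_of_zero (hA : Cofibre A q b) {X : OGrp}
    (hX : ∀ n, Subsingleton (R ⊗[ℤ] S.obj n X)) : IsoR R A X := by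
  intro n
  have h1 : Function.Exact (lin (A.app n X)) (lin (q.app n X)) := fun y => hA.exact_L n X y
  have h2 : Function.Exact (lin (b n X)) (lin (A.app n X)) := fun y => hA.exact_h n X y
  have h3 := Module.Flat.lTensor_exact R h1
  have h4 := Module.Flat.lTensor_exact R h2
  constructor
  · rw [injective_iff_map_eq_zero]
    intro x hx
    obtain ⟨s, hs⟩ := (h4 x).1 hx
    rw [← hs, (hX (n + 1)).elim s 0, map_zero]
  · intro y
    exact (h3 y).1 ((hX n).elim _ _)

/-- There is an injective homomorphism. -/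
def Emb (M N : Type u) [AddCommGroup M] [AddCommGroup N] : Prop := ∃ s : Hm M N, Injective s.f

theorem Emb.refl (M : Type u) [AddCommGroup M] : Emb M M :=
  ⟨⟨id, fun _ _ => rfl⟩, injective_id⟩

theorem Emb.trans {M N P : Type u} [AddCommGroup M] [AddCommGroup N] [AddCommGroup P]
    (h1 : Emb M N) (h2 : Emb N P) : Emb M P := by
  obtain ⟨s, hs⟩ := h1
  obtain ⟨t, ht⟩ := h2
  exact ⟨⟨fun x => t (s x), fun x y => by rw [s.add, t.add]⟩, ht.comp hs⟩

/-- `X` is a retract of `X × K`. -/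
def retractProd (X : OGrp) (K : Type) [Group K] : Retract X (X.prod K) where
  i := OGrp.Hom.mk (MonoidHom.inl X.G K) rfl
  r := X.fst K
  retract := rfl

theorem emb_Z (X : OGrp) (n : ℤ) : Emb (L.obj n X) (L.obj n X.timesZ) :=
  ⟨_, Fun.injective_of_retract L (retractProd X _) n⟩

theorem emb_zero (hA : Assembly A q b) (X : OGrp) (m : ℤ) :
    Emb (L.obj (4 * m) X) (L.obj 0 X) := by
  induction m with
  | zero => exact Emb.refl _
  | succ m ih =>
    obtain ⟨s, hs⟩ := hA.per (4 * (m : ℤ)) X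
    have h1 : Emb (L.obj (4 * ((m : ℤ) + 1)) X) (L.obj (4 * (m : ℤ)) X) := by
      rw [mul_add, mul_one]
      exact ⟨s, hs.1⟩
    exact h1.trans ih
  | pred m ih =>
    obtain ⟨s, hs⟩ := hA.per (4 * (-(m : ℤ) - 1)) X
    have h1 : Emb (L.obj (4 * (-(m : ℤ) - 1)) X) (L.obj (4 * (-(m : ℤ) - 1) + 4) X) := by
      let e := AddEquiv.ofBijective s.hom hs
      exact ⟨⟨e.symm, fun x y => map_add e.symm x y⟩, e.symm.injective⟩
    have h2 : 4 * (-(m : ℤ) - 1) + 4 = 4 * -(m : ℤ) := by ring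
    rw [h2] at h1
    exact h1.trans ih

/-- All groups `L_n(X)` embed in `L_0(X × ℤ³)`. -/
theorem L_embed (hA : Assembly A q b) (X : OGrp) (n : ℤ) :
    Emb (L.obj n X) (L.obj 0 X.timesZ.timesZ.timesZ) := by
  have hs : ∀ (n m : ℤ) (X : OGrp), n + 1 = m → Emb (L.obj n X) (L.obj m X.timesZ) := by
    rintro n _ X rfl
    exact hA.split n X
  obtain ⟨m, j, hj, rfl⟩ : ∃ m j : ℤ, (j = 0 ∨ j = 1 ∨ j = 2 ∨ j = 3) ∧ n = 4 * m - j :=
    ⟨(n + 3) / 4, 4 * ((n + 3) / 4) - n, by omega, by ring⟩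
  rcases hj with rfl | rfl | rfl | rfl
  · rw [sub_zero]
    exact (((emb_Z _ _).trans (emb_Z _ _)).trans (emb_Z _ _)).trans (emb_zero hA _ m)
  · exact (((hs _ (4 * m) _ (by ring)).trans (emb_Z _ _)).trans (emb_Z _ _)).trans
      (emb_zero hA _ m)
  · exact (((hs _ (4 * m - 1) _ (by ring)).trans (hs _ (4 * m) _ (by ring))).trans
      (emb_Z _ _)).trans (emb_zero hA _ m)
  · exact (((hs _ (4 * m - 2) _ (by ring)).trans (hs _ (4 * m - 1) _ (by ring))).trans
      (hs _ (4 * m) _ (by ring))).trans (emb_zero hA _ m)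


end Ring

/-- A class of abelian groups which contains the subgroups of its members, and with a group the
groups which differ from it by finitely generated groups. -/
structure Cls (P : (M : Type u) → [AddCommGroup M] → Prop) : Prop where
  sub : ∀ {M N : Type u} [AddCommGroup M] [AddCommGroup N], Emb M N → P N → P M
  quo : ∀ {K M N T : Type u} [AddCommGroup K] [AddCommGroup M] [AddCommGroup N] [AddCommGroup T]
    (r : Hm K M) (s : Hm M N) (t : Hm N T), (∀ y, s y = 0 ↔ ∃ x, r x = y) →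
    (∀ y, t y = 0 ↔ ∃ x, s x = y) → Module.Finite ℤ K → Module.Finite ℤ T → P M → P N
  ext : ∀ {M N T : Type u} [AddCommGroup M] [AddCommGroup N] [AddCommGroup T] (s : Hm M N)
    (t : Hm N T), (∀ y, t y = 0 ↔ ∃ x, s x = y) → Module.Finite ℤ M → P T → P N

theorem Cls.toS {P : (M : Type u) → [AddCommGroup M] → Prop} (hP : Cls P) (hA : Assembly A q b)
    {X : OGrp} (hX : FPres X.G) {n : ℤ} (hL : P (L.obj n X)) : P (S.obj n X) := by
  obtain ⟨m, rfl⟩ : ∃ m, n = m + 1 := ⟨n - 1, by ring⟩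
  exact hP.quo (A.app (m + 1) X) (q.app (m + 1) _) (b m _) (hA.cofibre.exact_L (m + 1) X)
    (hA.cofibre.exact_S m X) (hA.fin (m + 1) X hX) (hA.fin m X hX) hL

/-- `Y` is a test pair for `X`. -/
def IsTest (L S : Fun.{u}) (X Y : OGrp) : Prop :=
  ∀ P : (M : Type u) → [AddCommGroup M] → Prop, Cls P → P (L.obj 0 Y) → ∀ n,
    ∃ (N : Type u) (_ : AddCommGroup N) (f : Hm (S.obj n X × N) N), Injective f.f ∧ P N

theorem S_zero_one (hA : Assembly A q b) (n : ℤ) (s : S.obj n one) : s = 0 := by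
  refine S_zero hA.cofibre (hA.raag PEmpty ⊥ one 1 fun _ _ _ => rfl) n s

theorem zeroRAAG (hA : Assembly A q b) : ZeroRAAG S := by
  intro V _ Γ Y c hc n s
  exact S_zero hA.cofibre (hA.raag V Γ Y c hc) n s

theorem timesZ_w {X : OGrp} (hX : X.w = 1) : X.timesZ.w = 1 := by
  change X.w.comp _ = 1
  rw [hX]
  rfl

theorem FPres.timesZ {X : OGrp} (hX : FPres X.G) : FPres X.timesZ.G := hX.prod FPres.int

/-- A test pair for `P` is one for the retracts of `P`. -/
theorem IsTest.of_retract {X P Y : OGrp} (r : Retract X P) (hY : IsTest L S P Y) :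
    IsTest L S X Y := by
  intro Q hQ hL n
  obtain ⟨N, _, f, hf, hN⟩ := hY Q hQ hL n
  have hs := Fun.injective_of_retract S r n
  refine ⟨N, inferInstance, ⟨fun x => f (S.map n r.i x.1, x.2), fun x y => ?_⟩, ?_, hN⟩
  · rw [Prod.fst_add, Prod.snd_add, (S.map n r.i).add, ← Prod.mk_add_mk, f.add]
  · intro x y hxy
    have h1 := Prod.ext_iff.1 (hf hxy)
    exact Prod.ext (hs h1.1) h1.2

theorem retract_w {X P : OGrp} (r : Retract X P) (hw : X.w = 1) : P.w = 1 := by
  rw [← r.r.w_f, hw]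
  rfl

/-- The test group `Y` for `X`. -/
theorem test (hA : Assembly A q b) (hG : Davis) (X : OGrp) (hX : FPres X.G) :
    ∃ Y : OGrp, FPres Y.G ∧ (X.w = 1 → Y.w = 1) ∧ IsTest L S X Y := by
  obtain ⟨Z, ⟨m, hZ⟩, ⟨D, hD⟩, ⟨r⟩⟩ := hG X hX
  have hF : FPres (kerGrp Z D D.m).G := bestvinaBrady hZ.1.1 D hD
  refine ⟨(kerGrp Z D D.m).timesZ.timesZ.timesZ, FPres.timesZ (FPres.timesZ (FPres.timesZ hF)),
    ?_, IsTest.of_retract r ?_⟩
  · intro hw
    refine timesZ_w (timesZ_w (timesZ_w ?_))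
    change (Z.w.comp (D.ret D.m)).comp (D.deg D.m).ker.subtype = 1
    rw [retract_w r hw]
    rfl
  · intro P hP hL n
    have h1 : P (L.obj n (kerGrp Z D D.m)) := hP.sub (L_embed hA _ n) hL
    have h2 : P (S.obj n (kerGrp Z D D.m)) := hP.toS hA hF h1
    obtain ⟨f, hf⟩ := kerGrp_chain (fun H hi hj => hA.amalgam H hi hj) (zeroRAAG hA) Z D D.m hD.1
    obtain ⟨a, c, hac⟩ := kerGrp_one_inj (fun H hi hj => hA.amalgam H hi hj) (S_zero_one hA) Z D
    refine ⟨S.obj n (kerGrp Z D 1), inferInstance,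
      ⟨fun x => S.map n a x.1 + S.map n c x.2, fun x y => ?_⟩, ?_, hP.sub ⟨_, hf n⟩ h2⟩
    · rw [Prod.fst_add, Prod.snd_add, (S.map n a).add, (S.map n c).add]
      abel
    · refine hm_inj _ fun x hx => ?_
      obtain ⟨h3, h4⟩ := hac n x.1 x.2 hx
      exact Prod.ext h3 h4

/-- An acyclic group containing the structure groups of `X`. -/
theorem acyclic (hA : Assembly A q b) (hG : Davis) (hK : KanThurston A) (X : OGrp)
    (hX : FPres X.G) (hw : X.w = 1) :
    ∃ Y : OGrp, FPres Y.G ∧ Y.w = 1 ∧ AcyclicGrp Y.G ∧ ∀ n, Emb (S.obj n X) (S.obj n Y) := by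
  obtain ⟨Z, ⟨m, hZ⟩, ⟨D, hD⟩, ⟨r⟩⟩ := hG X hX
  obtain ⟨H, K, f, c, hH, hKF, hf, hc, hKw, hKa, hAH⟩ := hK.cover Z ⟨D, hD⟩ (retract_w r hw)
  have hP : FPres (Z.prod K.G).G := hZ.1.prod hKF
  let i : H ⟶ Z.prod K.G := OGrp.Hom.mk (f.f.prod c.f) (by rw [← f.w_f]; rfl)
  have hi : Injective i.f := fun x y hxy => hc (congrArg Prod.snd hxy)
  have hie : HEqv i.f := HEqv.of_comp_right i.f (MonoidHom.fst Z.G K.G)
    (hK.kunneth _ _ hKa) hf
  have hex : HEqv (ain₂ i c).f := hK.excision (isPushout i c) hi hc hie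
  refine ⟨amal i c, FPres.amal i.f c.f hi hc hH hP hKF, ?_, hKa.of_heqv _ hex, fun n => ?_⟩
  · have hZw : (Z.prod K.G).w = 1 := by
      change Z.w.comp _ = 1
      rw [retract_w r hw]
      rfl
    refine QuotientGroup.monoidHom_ext (rels i c) (Monoid.Coprod.hom_ext ?_ ?_)
    · exact (ain₁ i c).w_f.trans hZw
    · exact (ain₂ i c).w_f.trans hKw
  · have h1 : Injective (S.map n (ain₁ i c)).f :=
      map_injective (hA.amalgam (isPushout i c) hi hc) n (S_zero hA.cofibre hAH n)
    have h2 : Injective (S.map n (retractProd Z K.G).i).f :=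
      Fun.injective_of_retract S _ n
    exact (Emb.trans ⟨_, Fun.injective_of_retract S r n⟩ ⟨_, h2⟩).trans ⟨_, h1⟩

theorem FG.of_finite {R : Type} [CommRing R] {M : Type u} [AddCommGroup M]
    (hM : Module.Finite ℤ M) : FG R M := by
  unfold FG
  infer_instance

/-- Finite generation over `R`. -/
theorem clsFG (R : Type) [CommRing R] [IsNoetherianRing R] [Module.Flat ℤ R] :
    Cls.{u} (fun M _ => FG R M) where
  sub := by
    rintro M N _ _ ⟨s, hs⟩ hN
    exact FG.of_inj s hs hN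
  quo := by
    intro K M N T _ _ _ _ r s t _ hst _ hT hM
    exact FG.of_ex s t hst hM (FG.of_finite hT)
  ext := by
    intro M N T _ _ _ s t hst hM hT
    exact FG.of_ex s t hst (FG.of_finite hM) hT

/-- Finitely many elements of order `p`. -/
theorem clsTors (p : ℕ) (hp : p ≠ 0) :
    Cls.{u} (fun M _ => {x : M | p • x = 0}.Finite) where
  sub := by
    rintro M N _ _ ⟨s, hs⟩ hN
    refine Set.Finite.of_finite_image (f := s.f) (hN.subset ?_) hs.injOn
    rintro _ ⟨x, hx, rfl⟩
    have h1 : s (p • x) = p • s x := map_nsmul s.hom p x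
    rw [Set.mem_ofPred_eq] at hx
    rw [Set.mem_ofPred_eq, ← h1, hx, hm_zero]
  quo := by
    intro K M N T _ _ _ _ r s t hrs hst hK hT hM
    exact tors_finite_of_exact (lin r) (lin s) (lin t) hrs hst hK hT p hp hM
  ext := by
    intro M N T _ _ _ s t hst hM hT
    have h0 : Module.Finite ℤ (LinearMap.range (lin s)) := inferInstance
    have h1 : {x : LinearMap.range (lin s) | p • x = 0}.Finite :=
      torsionBy_finite _ p hp inferInstance
    refine Set.Finite.of_finite_fibers (f := t.f) (hT.subset ?_) ?_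
    · rintro _ ⟨x, hx, rfl⟩
      have h2 : t (p • x) = p • t x := map_nsmul t.hom p x
      rw [Set.mem_ofPred_eq] at hx
      rw [Set.mem_ofPred_eq, ← h2, hx, hm_zero]
    · rintro _ ⟨y, hy, rfl⟩
      refine ((h1.image Subtype.val).image (fun z => y + z)).subset ?_
      rintro x ⟨hx, hxy⟩
      have h3 : t (x - y) = 0 := by
        have h4 : t (x - y) = t x - t y := map_sub t.hom x y
        rw [h4, sub_eq_zero]
        exact hxy
      obtain ⟨z, hz⟩ := (hst _).1 h3
      refine ⟨x - y, ⟨⟨x - y, z, hz⟩, ?_, rfl⟩, add_sub_cancel y x⟩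
      rw [Set.mem_ofPred_eq] at hx hy ⊢
      apply Subtype.ext
      change p • (x - y) = 0
      rw [smul_sub, hx, hy, sub_zero]

/-- The test group for a Poincaré duality group `X`. -/
theorem test_PD (hA : Assembly A q b) (hG : Davis) (X : OGrp) (hX : PD X) :
    ∃ Y : OGrp, PD Y ∧ FiniteB Y ∧ IsTest L S X Y := by
  obtain ⟨n, hXn⟩ := hX
  obtain ⟨Y', hY', -, hY⟩ := test hA hG X hXn.1
  obtain ⟨Y, hYP, hYF, ⟨r'⟩⟩ := hG Y' hY'
  exact ⟨Y, hYP, hYF, fun P hP hL n => hY P hP (hP.sub ⟨_, Fun.injective_of_retract L r' 0⟩ hL) n⟩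

/-- The acyclic test group for an orientable Poincaré duality group `X`. -/
theorem test_acyclic (hA : Assembly A q b) (hG : Davis) (hK : KanThurston A) (X : OGrp)
    (hX : PD X) (hw : X.w = 1) :
    ∃ Y : OGrp, FPres Y.G ∧ Y.w = 1 ∧ AcyclicGrp Y.G ∧ IsTest L S X Y := by
  obtain ⟨n, hXn⟩ := hX
  obtain ⟨Y', hY', hYw, hY⟩ := test hA hG X hXn.1
  obtain ⟨Y, hYF, hYw', hYa, hYe⟩ := acyclic hA hG hK Y' hY' (hYw hw)
  refine ⟨Y, hYF, hYw', hYa, fun P hP hL n => ?_⟩
  have h1 : P (S.obj 0 Y') := hP.sub (hYe 0) (hP.toS hA hYF hL)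
  have h2 : P (L.obj 0 Y') := hP.ext (A.app 0 Y') (q.app 0 Y') (hA.cofibre.exact_L 0 Y')
    (hA.fin 0 Y' hY') h1
  exact hY P hP h2 n

theorem subsingleton_of_inj {R : Type} [CommRing R] [IsNoetherianRing R] [Module.Flat ℤ R]
    {M N : Type u} [AddCommGroup M] [AddCommGroup N] (f : Hm (M × N) N) (hf : Injective f.f)
    (hN : FG R N) : Subsingleton (R ⊗[ℤ] M) := by
  have : Module.Finite R (R ⊗[ℤ] N) := hN
  exact subsingleton_of_prod R (lin f) hf

/-- Finite rank, and finitely many elements of order `p` for each prime number `p`. -/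
def Small (M : Type u) [AddCommGroup M] : Prop :=
  FG ℚ M ∧ ∀ p : ℕ, p.Prime → {x : M | p • x = 0}.Finite

theorem Small.of_finite {M : Type u} [AddCommGroup M] (hM : Module.Finite ℤ M) : Small M :=
  ⟨FG.of_finite hM, fun p hp => torsionBy_finite M p hp.ne_zero inferInstance⟩

theorem Small.of_fg {M : Type u} [AddCommGroup M] (hM : FG ℤ M) : Small M := by
  refine Small.of_finite ?_
  unfold FG at hM
  exact Module.Finite.equiv (TensorProduct.lid ℤ M)

theorem iso_of_zero (hA : Cofibre A q b) {X : OGrp} (hX : ∀ n (s : S.obj n X), s = 0) :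
    Iso A X := by
  intro n
  constructor
  · refine hm_inj _ fun x hx => ?_
    obtain ⟨s, hs⟩ := (hA.exact_h n X x).1 hx
    rw [← hs, hX _ s, hm_zero]
  · intro y
    exact (hA.exact_L n X y).1 (hX n _)

theorem IsTest.small (hA : Assembly A q b) {X Y : OGrp} (hXY : IsTest L S X Y)
    (hY : Small (L.obj 0 Y)) : Iso A X := by
  refine iso_of_zero hA.cofibre fun n => eq_zero_of_rat ?_ fun p hp => ?_
  · obtain ⟨N, _, f, hf, hN⟩ := hXY _ (clsFG ℚ) hY.1 n
    exact subsingleton_of_inj f hf hN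
  · obtain ⟨N, _, f, hf, hN⟩ := hXY _ (clsTors p hp.ne_zero) (hY.2 p hp) n
    exact no_torsion_of_prod (lin f) hf p hN

theorem IsTest.fg (hA : Assembly A q b) {R : Type} [CommRing R] [IsNoetherianRing R]
    [Module.Flat ℤ R] {X Y : OGrp} (hXY : IsTest L S X Y)
    (hY : FG R (L.obj 0 Y)) : IsoR R A X := by
  refine isoR_of_zero hA.cofibre fun n => ?_
  obtain ⟨N, _, f, hf, hN⟩ := hXY _ (clsFG R) hY n
  exact subsingleton_of_inj f hf hN

theorem fin_L (hA : Assembly A q b) {X : OGrp} (hX : PD X) (hi : Iso A X) :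
    Module.Finite ℤ (L.obj 0 X) := by
  obtain ⟨n, hXn⟩ := hX
  have := hA.fin 0 X hXn.1
  exact Module.Finite.of_surjective (lin (A.app 0 X)) (hi 0).2

theorem fg_of_isoR (hA : Assembly A q b) {R : Type} [CommRing R] {X : OGrp} (hX : PD X)
    (hi : IsoR R A X) : FG R (L.obj 0 X) := by
  obtain ⟨n, hXn⟩ := hX
  have := hA.fin 0 X hXn.1
  unfold FG
  exact Module.Finite.of_surjective _ (hi 0).2

end Basic

/-- Let `A : h → L` satisfy `Assembly`. For all Noetherian rings `R` without additive torsion: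
`A ⊗ R` is an isomorphism for all Poincaré duality groups if and only if the `R`-modules
`L_0(X) ⊗ R` are finitely generated for all Poincaré duality groups `X` with a finite classifying
space; for each Poincaré duality group there is such a test group which works for all `R`. For
trivial characters one can use acyclic finitely presented groups of type FP. The maps `A` are
isomorphisms for all Poincaré duality groups if and only if the groups `L_0(X)` have finite rank and
finitely many elements of order `p` for each prime number `p`. Let 2 be a unit in `R`, and let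
homomorphisms `L₀(ℤ[π]) → L_0(X)`, `X = (π, w)`, be given, the kernels and cokernels of which
consist of elements killed by powers of 2; here `L₀(ℤ[π])` is the group of stable isometry classes
of nonsingular quadratic forms on free modules of finite rank. Then one can replace `L_0(X)` by the
group `L₀(ℝ[π])` of the group algebra over the real numbers. -/
theorem result {h L S : Fun.{u}} {A : Trans h L} {q : Trans L S}
    {b : ∀ n X, Hm (S.obj (n + 1) X) (h.obj n X)} (hA : Assembly A q b) (hG : Davis) :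
    (∀ (R : Type) [CommRing R] [IsNoetherianRing R] [Module.Flat ℤ R],
      ((∀ X, PD X → IsoR R A X) ↔ ∀ X, PD X → FiniteB X → FG R (L.obj 0 X)) ∧
      (KanThurston A → ((∀ X, PD X → X.w = 1 → IsoR R A X) ↔
        ∀ X : OGrp, FPres X.G → X.w = 1 → AcyclicGrp X.G → FG R (L.obj 0 X)))) ∧
    ((∀ X, PD X → Iso A X) ↔ ∀ X, PD X → FiniteB X → Small (L.obj 0 X)) ∧
    (∀ X, PD X → ∃ Y, PD Y ∧ FiniteB Y ∧ (Small (L.obj 0 Y) → Iso A X) ∧
      ∀ (R : Type) [CommRing R] [IsNoetherianRing R] [Module.Flat ℤ R],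
        FG R (L.obj 0 Y) → IsoR R A X) ∧
    (∀ j : (X : OGrp) → L0 (GR ℤ X.G X.w) 1 →+ L.obj 0 X, (∀ X, TwoIso (j X)) →
      ∀ (R : Type) [CommRing R] [IsNoetherianRing R] [Module.Flat ℤ R], IsUnit (2 : R) →
        ((∀ X, PD X → IsoR R A X) ↔ ∀ X, PD X → FiniteB X → FG R (L0 (GR ℝ X.G X.w) 1)) ∧
        (KanThurston A → ((∀ X, PD X → X.w = 1 → IsoR R A X) ↔
          ∀ X : OGrp, FPres X.G → X.w = 1 → AcyclicGrp X.G → FG R (L0 (GR ℝ X.G X.w) 1)))) := by
  have h12 : ∀ (R : Type) [CommRing R] [IsNoetherianRing R] [Module.Flat ℤ R],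
      ((∀ X, PD X → IsoR R A X) ↔ ∀ X, PD X → FiniteB X → FG R (L.obj 0 X)) ∧
      (KanThurston A → ((∀ X, PD X → X.w = 1 → IsoR R A X) ↔
        ∀ X : OGrp, FPres X.G → X.w = 1 → AcyclicGrp X.G → FG R (L.obj 0 X))) := by
    intro R _ _ _
    refine ⟨⟨fun H X hX _ => fg_of_isoR hA hX (H X hX), fun H X hX => ?_⟩,
      fun hK => ⟨fun H X hX hw hXa => ?_, fun H X hX hw => ?_⟩⟩
    · obtain ⟨Y, hY, hYF, ht⟩ := test_PD hA hG X hX
      exact ht.fg hA (H Y hY hYF)
    · obtain ⟨Y, hY, -, ⟨r⟩⟩ := hG X hX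
      exact FG.of_inj _ (Fun.injective_of_retract L r 0)
        (fg_of_isoR hA hY (H Y hY (retract_w r hw)))
    · obtain ⟨Y, hY, hYw, hYa, ht⟩ := test_acyclic hA hG hK X hX hw
      exact ht.fg hA (H Y hY hYw hYa)
  refine ⟨fun R _ _ _ => h12 R,
    ⟨fun H X hX _ => Small.of_finite (fin_L hA hX (H X hX)), fun H X hX => ?_⟩,
    fun X hX => ?_, fun j hj R _ _ _ h2 => ?_⟩
  · obtain ⟨Y, hY, hYF, ht⟩ := test_PD hA hG X hX
    exact ht.small hA (H Y hY hYF)
  · obtain ⟨Y, hY, hYF, ht⟩ := test_PD hA hG X hX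
    exact ⟨Y, hY, hYF, ht.small hA, fun R _ _ _ => ht.fg hA⟩
  · have key : ∀ X : OGrp, FG R (L.obj 0 X) ↔ FG R (L0 (GR ℝ X.G X.w) 1) := fun X =>
      (Pool.Agent.H96.CX.finite_iff R h2 (hj X)).symm.trans
        (Pool.Agent.H96.CX.finite_real R h2 X.G X.w 1)
    refine ⟨(h12 R).1.trans ?_, fun hK => ((h12 R).2 hK).trans ?_⟩
    · exact forall₃_congr fun X _ _ => key X
    · exact forall₄_congr fun X _ _ _ => key X

end Pool.Agent.Results.MP_c13a79_gt.FinitelyGenerated
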