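import Mathlib
import Pool.Agent.H11.FG.Push

/-!
MP_c13a79_gt: if every Poincaré duality group is (stably) the fundamental group of a closed
aspherical homology manifold, then the assembly map is an isomorphism for every Poincaré duality
group.
-/

set_option autoImplicit false

namespace Pool.Agent.Results.MP_c13a79_gt.ManifoldExistence

open CategoryTheory Function Pool.Agent.H16.BB Pool.Agent.H11.FG

universe u

/-- `f` induces isomorphisms in all degrees. -/
def Eqv (E : Fun.{u}) {X Y : OGrp} (f : X ⟶ Y) : Prop := ∀ n, Bijective (E.map n f)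

/-- `X → 1` induces isomorphisms in all degrees (in particular the character is trivial). -/
def Acyclic (E : Fun.{u}) (X : OGrp) : Prop := ∃ t : X ⟶ one, Eqv E t

/-- `A` is an isomorphism at `X` in all degrees. -/
def Iso {h L : Fun.{u}} (A : Trans h L) (X : OGrp) : Prop := ∀ n, Bijective (A.app n X)

/-- `S` is the cofibre of `A : h → L`: there is a natural long exact sequence
`h_{n+1} → L_{n+1} → S_{n+1} → h_n → L_n` with the maps `A`, `q`, `b`, `A`. -/
structure Cofibre {h L S : Fun.{u}} (A : Trans h L) (q : Trans L S)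
    (b : ∀ n X, Hm (S.obj (n + 1) X) (h.obj n X)) : Prop where
  nat : ∀ n {X Y : OGrp} (f : X ⟶ Y) s, b n Y (S.map (n + 1) f s) = h.map n f (b n X s)
  exact_L : ∀ n X y, q.app n X y = 0 ↔ ∃ x, A.app n X x = y
  exact_S : ∀ n X s, b n X s = 0 ↔ ∃ y, q.app (n + 1) X y = s
  exact_h : ∀ n X x, A.app n X x = 0 ↔ ∃ s, b n X s = x

/-- Four-fold periodicity of `L`, compatible with `A`. -/
def Periodic {h L : Fun.{u}} (A : Trans h L) (X : OGrp) : Prop :=
  ∀ n, ∃ (a : Hm (h.obj (n + 4) X) (h.obj n X)) (b : Hm (L.obj (n + 4) X) (L.obj n X)),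
    Bijective a ∧ Bijective b ∧ ∀ x, A.app n X (a x) = b (A.app (n + 4) X x)

/-- There is an injection `S n X → S (n+1) (X × ℤ)` whose image goes to zero under the projection
`X × ℤ → X`. -/
def Shifts (S : Fun.{u}) (n : ℤ) (X : OGrp) : Prop :=
  ∃ v : Hm (S.obj n X) (S.obj (n + 1) X.timesZ), Injective v ∧ ∀ x, S.map (n + 1) X.pr (v x) = 0

/-- `p : X → Y` is covered by an injection `H → K` of groups in `F`, by `e`-isomorphisms `H → X`
and `K → Y`; `A` is an isomorphism for `H`, and `H` embeds in an acyclic group in `F`. -/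
def Covered (F : (G : Type) → [Group G] → Prop) (e : Fun.{u})
    {h L : Fun.{u}} (A : Trans h L) {X Y : OGrp} (p : X ⟶ Y) : Prop :=
  ∃ (H K K₀ : OGrp) (f : H ⟶ X) (g : K ⟶ Y) (j : H ⟶ K) (c : H.G →* K₀.G),
    F H.G ∧ F K.G ∧ F K₀.G ∧ j ≫ g = f ≫ p ∧ Injective j.f ∧ Injective c ∧
    Eqv e f ∧ Eqv e g ∧ Acyclic e K₀ ∧ Iso A H

/-- The known facts about homology which are used: `F` groups with a finite classifying space,
`e` homology with coefficients twisted by the character, `h` the homology theory of the surgery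
spectrum. -/
structure Homology (F : (G : Type) → [Group G] → Prop) (e h : Fun.{u}) : Prop where
  int : F (Multiplicative ℤ)
  prod : ∀ (G K : Type) [Group G] [Group K], F G → F K → F (G × K)
  /-- homology isomorphisms are isomorphisms for `h` -/
  eqv : ∀ {X Y : OGrp} (f : X ⟶ Y), F X.G → F Y.G → Eqv e f → Eqv h f
  /-- product with an acyclic group -/
  prod_acyclic : ∀ (X K : OGrp), F X.G → F K.G → Acyclic e K → Eqv e (X.fst K.G)

/-- The known facts about assembly maps which are used: `L` the `L`-groups, `A` assembly, `S` the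
structure groups. -/
structure Assembly (F : (G : Type) → [Group G] → Prop) (e : Fun.{u}) {h L S : Fun.{u}}
    (A : Trans h L) (q : Trans L S) (b : ∀ n X, Hm (S.obj (n + 1) X) (h.obj n X)) : Prop where
  hom : Homology F e h
  cofibre : Cofibre A q b
  /-- four-fold periodicity -/
  per : ∀ X : OGrp, F X.G → Periodic A X
  /-- Shaneson splitting for `X × ℤ` -/
  split : ∀ X : OGrp, F X.G → ∀ n, Shifts S n X
  /-- the middle term of the Mayer-Vietoris sequence of an amalgamated product -/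
  amalgam : ∀ {Y X₁ X₂ Z : OGrp} {i : Y ⟶ X₁} {j : Y ⟶ X₂} {k₁ : X₁ ⟶ Z} {k₂ : X₂ ⟶ Z},
    IsPushout i j k₁ k₂ → Injective i.f → Injective j.f → F Y.G → F X₁.G → F X₂.G →
    F Z.G ∧ Mid S i j k₁ k₂
  /-- Kan-Thurston theorem with CAT(0) groups, and the Farrell-Jones conjecture for them -/
  kanThurston : ∀ {X Y : OGrp} (p : X ⟶ Y), F X.G → F Y.G → Covered F e A p

/-- `P` is the HNN extension of `V`, with base map `k` and stable letter `t`, in which the
embeddings `i₀, i₁ : N → V` become conjugate: `i₀ g = t (i₁ g) t⁻¹`. -/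
structure IsHNN {N V P : OGrp} (i₀ i₁ : N ⟶ V) (k : V ⟶ P) (t : P.G) : Prop where
  w_t : P.w t = 1
  comm : ∀ g, k.f (i₀.f g) = t * k.f (i₁.f g) * t⁻¹
  desc : ∀ (M : OGrp) (f : V ⟶ M) (s : M.G), M.w s = 1 →
    (∀ g, f.f (i₀.f g) = s * f.f (i₁.f g) * s⁻¹) → ∃ g : P ⟶ M, k ≫ g = f ∧ g.f t = s
  uniq : ∀ (M : OGrp) (g g' : P ⟶ M), k ≫ g = k ≫ g' → g.f t = g'.f t → g = g'

/-- Notions of manifold topology, expressed by fundamental groups. -/
structure Geometry (S : Fun.{u}) where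
  /-- `Mfd n X`: `X` is the fundamental group, with its orientation character, of a closed
  aspherical triangulated manifold of dimension `n` -/
  Mfd : ℤ → OGrp → Prop
  /-- `PD n X`: `X` is a Poincaré duality group of dimension `n` with its orientation character -/
  PD : ℤ → OGrp → Prop
  /-- `Anr n X`: for some `k`, `X × ℤ^k` is the fundamental group of a closed aspherical ANR homology
  manifold of dimension `n + k` -/
  Anr : ℤ → OGrp → Prop
  /-- the total surgery obstruction -/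
  s : ∀ n X, S.obj n X
  /-- homotopy equivalences `f : N' → N` from a closed triangulated manifold to the given manifold
  `N` with fundamental group `X`, with a triangulated cobordism from the identity of `N` to `f` -/
  Str : ℤ → OGrp → Type
  /-- the structure invariant of `f` -/
  inv : ∀ n X, Str n X → S.obj (n + 1) X
  /-- `Cob n f i₀ i₁ r`: `V` is the fundamental group of an aspherical cobordism from `N` to `N'` with
  a map to `N` which is the identity on `N` and `f` on `N'`; `i₀` and `i₁` are induced by the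
  inclusions of the ends, `r` by the map to `N` -/
  Cob : ∀ (n : ℤ) {X V : OGrp}, Str n X → (X ⟶ V) → (X ⟶ V) → (V ⟶ X) → Prop

/-- The known facts of manifold topology which are used. -/
structure Known (F : (G : Type) → [Group G] → Prop) {h L S : Fun.{u}} (A : Trans h L)
    (q : Trans L S) (g : Geometry S) : Prop where
  pd_mfd : ∀ n X, g.Mfd n X → g.PD n X ∧ F X.G
  pd_retract : ∀ n X, g.PD n X → ∃ P : OGrp, F P.G ∧ Nonempty (Retract X P)
  /-- Davis: groups with a finite classifying space are retracts of fundamental groups of closed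
  aspherical manifolds of any large dimension -/
  davis : ∀ X : OGrp, F X.G → ∃ n₀ : ℤ, ∀ n, n₀ ≤ n → ∃ N, g.Mfd n N ∧ Nonempty (Retract X N)
  /-- Wall realization of elements `y` of the `L`-groups by homotopy equivalences, after product
  with a torus (`M = N × T^j`, `φ` the product with `T^j`), which is needed because of the
  decoration -/
  wall : ∀ n N, 5 ≤ n → g.Mfd n N → ∀ y : L.obj (n + 1) N, ∃ (m : ℤ) (M : OGrp)
    (φ : Hm (L.obj (n + 1) N) (L.obj (m + 1) M)) (f : g.Str m M),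
    5 ≤ m ∧ g.Mfd m M ∧ Nonempty (Retract N M) ∧
    (∀ z, (∃ x, A.app (m + 1) M x = φ z) ↔ ∃ x, A.app (n + 1) N x = z) ∧
    g.inv m M f = q.app (m + 1) M (φ y)
  /-- Davis-Januszkiewicz-Weinberger: aspherical relative hyperbolization of cobordisms -/
  hyperbolize : ∀ n N, 5 ≤ n → g.Mfd n N → ∀ f : g.Str n N, ∃ (V : OGrp) (i₀ i₁ : N ⟶ V)
    (r : V ⟶ N), g.Cob n f i₀ i₁ r ∧ Injective i₀.f ∧ Injective i₁.f ∧ i₀ ≫ r = 𝟙 N ∧ i₁ ≫ r = 𝟙 N
  /-- Ranicki: the total surgery obstruction of the Poincaré complex obtained by gluing the ends of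
  the cobordism by means of `f` -/
  glue : ∀ (n : ℤ) {N V P : OGrp} (f : g.Str n N) (i₀ i₁ : N ⟶ V) (r : V ⟶ N) (k : V ⟶ P)
    (t : P.G), 5 ≤ n → g.Mfd n N → g.Cob n f i₀ i₁ r → IsHNN i₀ i₁ k t →
    g.PD (n + 1) P ∧ F P.G ∧ g.s (n + 1) P = S.map (n + 1) (i₀ ≫ k) (g.inv n N f)
  /-- Ranicki, Bryant-Ferry-Mio-Weinberger -/
  total : ∀ n X, 6 ≤ n → g.PD n X → F X.G → (g.Anr n X ↔ g.s n X = 0)

/-! ### HNN extensions -/

section HNN

variable {N V : OGrp} (i₀ i₁ : N ⟶ V) (h₀ : Injective i₀.f) (h₁ : Injective i₁.f)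

/-- The isomorphism of the images. -/
noncomputable def ends : i₁.f.range ≃* i₀.f.range :=
  (MonoidHom.ofInjective h₁).symm.trans (MonoidHom.ofInjective h₀)

theorem ends_apply (x : N.G) : ends i₀ i₁ h₀ h₁ ⟨i₁.f x, x, rfl⟩ = ⟨i₀.f x, x, rfl⟩ := by
  have h2 : (MonoidHom.ofInjective h₁).symm ⟨i₁.f x, x, rfl⟩ = x :=
    (MonoidHom.ofInjective h₁).symm_apply_apply x
  rw [ends, MulEquiv.trans_apply, h2]
  rfl

theorem hnn_w (a : i₁.f.range) :
    1 * V.w a = V.w (ends i₀ i₁ h₀ h₁ a) * 1 := by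
  obtain ⟨_, x, rfl⟩ := a
  rw [ends_apply, one_mul, mul_one]
  exact (DFunLike.congr_fun i₁.w_f x).trans (DFunLike.congr_fun i₀.w_f x).symm

/-- The HNN extension. -/
noncomputable def hnn : OGrp :=
  ⟨HNNExtension V.G i₁.f.range i₀.f.range (ends i₀ i₁ h₀ h₁),
    HNNExtension.lift V.w 1 (hnn_w i₀ i₁ h₀ h₁)⟩

theorem hnn_w_of (x : V.G) : (hnn i₀ i₁ h₀ h₁).w (HNNExtension.of x) = V.w x :=
  HNNExtension.lift_of V.w 1 (hnn_w i₀ i₁ h₀ h₁) x

theorem hnn_w_t : (hnn i₀ i₁ h₀ h₁).w HNNExtension.t = 1 :=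
  HNNExtension.lift_t V.w 1 (hnn_w i₀ i₁ h₀ h₁)

theorem isHNN : ∃ (k : V ⟶ hnn i₀ i₁ h₀ h₁) (t : (hnn i₀ i₁ h₀ h₁).G), IsHNN i₀ i₁ k t := by
  let k : V ⟶ hnn i₀ i₁ h₀ h₁ := OGrp.Hom.mk HNNExtension.of
    (MonoidHom.ext (hnn_w_of i₀ i₁ h₀ h₁))
  refine ⟨k, HNNExtension.t, ⟨hnn_w_t i₀ i₁ h₀ h₁, ?_, ?_, ?_⟩⟩
  · intro x
    have h2 := HNNExtension.t_mul_of (φ := ends i₀ i₁ h₀ h₁) ⟨i₁.f x, x, rfl⟩
    rw [ends_apply] at h2
    exact eq_mul_inv_of_mul_eq h2.symm
  · intro M f s hs hf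
    have h3 : ∀ a : i₁.f.range, s * f.f a = f.f (ends i₀ i₁ h₀ h₁ a) * s := by
      rintro ⟨_, x, rfl⟩
      rw [ends_apply]
      change s * f.f (i₁.f x) = f.f (i₀.f x) * s
      rw [hf x]
      group
    let G : (hnn i₀ i₁ h₀ h₁).G →* M.G := HNNExtension.lift f.f s h3
    have hG : ∀ x, G (HNNExtension.of x) = f.f x := fun x => HNNExtension.lift_of f.f s h3 x
    have hGt : G HNNExtension.t = s := HNNExtension.lift_t f.f s h3
    have hw : M.w.comp G = (hnn i₀ i₁ h₀ h₁).w := by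
      refine HNNExtension.hom_ext (MonoidHom.ext fun x => ?_) ?_
      · change M.w (G (HNNExtension.of x)) = (hnn i₀ i₁ h₀ h₁).w (HNNExtension.of x)
        rw [hG, hnn_w_of]
        exact DFunLike.congr_fun f.w_f x
      · change M.w (G HNNExtension.t) = (hnn i₀ i₁ h₀ h₁).w HNNExtension.t
        rw [hGt, hnn_w_t, hs]
    exact ⟨OGrp.Hom.mk G hw, OGrp.Hom.ext (MonoidHom.ext hG), hGt⟩
  · intro M g g' h2 h3
    refine OGrp.Hom.ext (HNNExtension.hom_ext ?_ h3)
    exact congrArg OGrp.Hom.f h2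

end HNN

/-! ### Pushouts of groups with characters -/

section Pushout

variable {Y X₁ X₂ : OGrp} (i : Y ⟶ X₁) (j : Y ⟶ X₂)

/-- The relations of the amalgamated product. -/
def rels : Subgroup (Monoid.Coprod X₁.G X₂.G) :=
  Subgroup.normalClosure (Set.range fun y : Y.G =>
    (Monoid.Coprod.inl (i.f y) : Monoid.Coprod X₁.G X₂.G) * (Monoid.Coprod.inr (j.f y))⁻¹)

instance : (rels i j).Normal := Subgroup.normalClosure_normal

theorem rels_le {K : Type} [Group K] (a : X₁.G →* K) (b : X₂.G →* K)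
    (hab : a.comp i.f = b.comp j.f) : rels i j ≤ (Monoid.Coprod.lift a b).ker := by
  refine Subgroup.normalClosure_le_normal ?_
  rintro _ ⟨y, rfl⟩
  rw [SetLike.mem_coe, MonoidHom.mem_ker, map_mul, map_inv, Monoid.Coprod.lift_apply_inl,
    Monoid.Coprod.lift_apply_inr, mul_inv_eq_one]
  exact DFunLike.congr_fun hab y

/-- The amalgamated product. -/
def amal : OGrp :=
  ⟨Monoid.Coprod X₁.G X₂.G ⧸ rels i j,
    QuotientGroup.lift (rels i j) (Monoid.Coprod.lift X₁.w X₂.w)
      (rels_le i j X₁.w X₂.w (i.w_f.trans j.w_f.symm))⟩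

/-- The first inclusion. -/
def ain₁ : X₁ ⟶ amal i j :=
  OGrp.Hom.mk ((QuotientGroup.mk' (rels i j)).comp Monoid.Coprod.inl)
    (MonoidHom.ext fun x => Monoid.Coprod.lift_apply_inl X₁.w X₂.w x)

/-- The second inclusion. -/
def ain₂ : X₂ ⟶ amal i j :=
  OGrp.Hom.mk ((QuotientGroup.mk' (rels i j)).comp Monoid.Coprod.inr)
    (MonoidHom.ext fun x => Monoid.Coprod.lift_apply_inr X₁.w X₂.w x)

theorem amal_isPushout : IsPushout i j (ain₁ i j) (ain₂ i j) := by
  have hw : i ≫ ain₁ i j = j ≫ ain₂ i j := by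
    refine OGrp.Hom.ext ?_
    ext y
    change (QuotientGroup.mk' (rels i j)) (Monoid.Coprod.inl (i.f y)) =
      (QuotientGroup.mk' (rels i j)) (Monoid.Coprod.inr (j.f y))
    rw [QuotientGroup.mk'_apply, QuotientGroup.mk'_apply, QuotientGroup.eq]
    have h1 : (Monoid.Coprod.inl (i.f y) : Monoid.Coprod X₁.G X₂.G) *
        (Monoid.Coprod.inr (j.f y))⁻¹ ∈ rels i j :=
      Subgroup.subset_normalClosure ⟨y, rfl⟩
    have h2 := (inferInstance : (rels i j).Normal).conj_mem _ ((rels i j).inv_mem h1)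
      (Monoid.Coprod.inl (i.f y))⁻¹
    simpa [mul_assoc] using h2
  refine ⟨⟨hw⟩, ⟨Limits.PushoutCocone.IsColimit.mk hw ?_ ?_ ?_ ?_⟩⟩
  · intro s
    have hs : s.inl.f.comp i.f = s.inr.f.comp j.f := congrArg OGrp.Hom.f s.condition
    refine OGrp.Hom.mk (QuotientGroup.lift (rels i j) (Monoid.Coprod.lift s.inl.f s.inr.f)
      (rels_le i j _ _ hs)) ?_
    apply QuotientGroup.monoidHom_ext
    apply Monoid.Coprod.hom_ext
    · exact MonoidHom.ext fun x => (congrArg s.pt.w
        (Monoid.Coprod.lift_apply_inl s.inl.f s.inr.f x)).trans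
        ((DFunLike.congr_fun s.inl.w_f x).trans
        (Monoid.Coprod.lift_apply_inl X₁.w X₂.w x).symm)
    · exact MonoidHom.ext fun x => (congrArg s.pt.w
        (Monoid.Coprod.lift_apply_inr s.inl.f s.inr.f x)).trans
        ((DFunLike.congr_fun s.inr.w_f x).trans
        (Monoid.Coprod.lift_apply_inr X₁.w X₂.w x).symm)
  · intro s
    refine OGrp.Hom.ext ?_
    ext x
    rfl
  · intro s
    refine OGrp.Hom.ext ?_
    ext x
    rfl
  · intro s m h1 h2
    refine OGrp.Hom.ext ?_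
    apply QuotientGroup.monoidHom_ext
    apply Monoid.Coprod.hom_ext
    · ext x
      exact DFunLike.congr_fun (congrArg OGrp.Hom.f h1) x
    · ext x
      exact DFunLike.congr_fun (congrArg OGrp.Hom.f h2) x

end Pushout

/-! ### The argument -/

/-- The inclusion `X → X × K`. -/
def inl (X : OGrp) (K : Type) [Group K] : X ⟶ X.prod K :=
  OGrp.Hom.mk (MonoidHom.inl X.G K) rfl

theorem inl_fst (X : OGrp) (K : Type) [Group K] : inl X K ≫ X.fst K = 𝟙 X := rfl

section Main

variable {F : (G : Type) → [Group G] → Prop} {h L S e : Fun.{u}} {A : Trans h L}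
  {q : Trans L S} {b : ∀ n X, Hm (S.obj (n + 1) X) (h.obj n X)}

theorem S_zero (hA : Cofibre A q b) {X : OGrp} (hX : Iso A X) (n : ℤ) (s : S.obj n X) : s = 0 := by
  obtain ⟨m, rfl⟩ : ∃ m, n = m + 1 := ⟨n - 1, by ring⟩
  have h1 : A.app m X (b m X s) = 0 := (hA.exact_h m X _).2 ⟨s, rfl⟩
  have h2 : b m X s = 0 := (hX m).1 (by rw [h1, hm_zero])
  obtain ⟨y, rfl⟩ := (hA.exact_S m X s).1 h2
  exact (hA.exact_L _ X y).2 ((hX (m + 1)).2 y)

theorem map_retract (E : Fun.{u}) {X P : OGrp} (r : Retract X P) (n : ℤ) (x : E.obj n X) :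
    E.map n r.r (E.map n r.i x) = x := by
  rw [← E.map_comp, r.retract, E.map_id]

/-- The structure groups of `X` embed in cokernels of `A`. -/
theorem embed (hA : Assembly F e A q b) {X : OGrp} (hX : F X.G) (n : ℤ) :
    ∃ (Z : OGrp) (φ : S.obj n X → S.obj (n + 1) Z), F Z.G ∧ (∀ s, φ s = 0 → s = 0) ∧
      ∀ s, ∃ y, q.app (n + 1) Z y = φ s := by
  obtain ⟨v, hv, hv0⟩ := hA.split X hX n
  have hW : F (X.timesZ).G := hA.hom.prod _ _ hX hA.hom.int
  obtain ⟨H, K, K₀, f, g, j, c, hH, hK, hK₀, hsq, hj, hc, hf, hg, hK₀a, hAH⟩ :=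
    hA.kanThurston X.pr hW hX
  have hP : F (X.timesZ.prod K₀.G).G := hA.hom.prod X.timesZ.G K₀.G hW hK₀
  have hfst : Eqv e (X.timesZ.fst K₀.G) := hA.hom.prod_acyclic X.timesZ K₀ hW hK₀ hK₀a
  let i : H ⟶ X.timesZ.prod K₀.G := OGrp.Hom.mk (f.f.prod c) (by
    have := f.w_f
    rw [← this]
    rfl)
  have hi : Injective i.f := fun a b hab => hc (congrArg Prod.snd hab)
  have hif : i ≫ X.timesZ.fst K₀.G = f := rfl
  obtain ⟨hZ, hmv⟩ := hA.amalgam (amal_isPushout i j) hi hj hH hP hK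
  refine ⟨amal i j, fun s => S.map (n + 1) (ain₁ i j) (S.map (n + 1) (inl X.timesZ K₀.G) (v s)),
    hZ, ?_, ?_⟩
  · intro s hs
    have hs' : S.map (n + 1) (ain₁ i j) (S.map (n + 1) (inl X.timesZ K₀.G) (v s)) = 0 := hs
    obtain ⟨a, ha, -⟩ := (hmv (n + 1) (S.map (n + 1) (inl X.timesZ K₀.G) (v s)) 0).1
      (by rw [hs', hm_zero])
    rw [S_zero hA.cofibre hAH (n + 1) a, hm_zero] at ha
    have h1 : v s = 0 := by
      rw [← S.map_id (n + 1) _ (v s), ← inl_fst X.timesZ K₀.G, S.map_comp, ← ha, hm_zero]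
    exact hv (by rw [h1, hm_zero])
  · intro s
    refine (hA.cofibre.exact_S n _ _).1 ?_
    rw [hA.cofibre.nat, hA.cofibre.nat]
    set x := b n X.timesZ (v s) with hx
    have hpx : h.map n X.pr x = 0 := by
      rw [hx, ← hA.cofibre.nat, hv0, hm_zero]
    have hhf : Eqv h f := hA.hom.eqv _ hH hW hf
    have hhg : Eqv h g := hA.hom.eqv _ hK hX hg
    have hhfst : Eqv h (X.timesZ.fst K₀.G) := hA.hom.eqv _ hP hW hfst
    obtain ⟨y, hy⟩ := (hhf n).2 x
    have h1 : h.map n i y = h.map n (inl X.timesZ K₀.G) x := by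
      apply (hhfst n).1
      rw [← Fun.map_comp, ← Fun.map_comp, hif, inl_fst, Fun.map_id, hy]
    have h2 : h.map n j y = 0 := by
      apply (hhg n).1
      rw [← Fun.map_comp, hsq, Fun.map_comp, hy, hpx, hm_zero]
    rw [← h1, ← Fun.map_comp, (amal_isPushout i j).w, Fun.map_comp, h2, hm_zero]

theorem surj_shift (hA : Assembly F e A q b) {X : OGrp} (hX : F X.G) (n : ℤ) (k : ℕ)
    (hs : Surjective (A.app (n + 4 * k) X)) : Surjective (A.app n X) := by
  induction k with
  | zero =>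
    have h0 : n + 4 * ((0 : ℕ) : ℤ) = n := by simp
    rwa [h0] at hs
  | succ k ih =>
    apply ih
    have h1 : n + 4 * ((k + 1 : ℕ) : ℤ) = n + 4 * k + 4 := by push_cast; ring
    rw [h1] at hs
    obtain ⟨a, c, ha, hc, hac⟩ := hA.per X hX (n + 4 * k)
    intro y
    obtain ⟨z, rfl⟩ := hc.2 y
    obtain ⟨x, rfl⟩ := hs z
    exact ⟨a x, hac x⟩

/-- A Poincaré duality group which detects a given element. -/
theorem detect {g : Geometry S} (hg : Known F A q g) (n : ℤ) (hn : 5 ≤ n)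
    {N : OGrp} (hN : g.Mfd n N) (y : L.obj (n + 1) N) (hy : ¬ ∃ x, A.app (n + 1) N x = y)
    (hA : Cofibre A q b) :
    ∃ (m : ℤ) (P : OGrp), 6 ≤ m ∧ g.PD m P ∧ F P.G ∧ Nonempty (Retract N P) ∧ ¬ g.Anr m P := by
  obtain ⟨m, M, φ, f, hm, hM, ⟨rM⟩, hφ, hinv⟩ := hg.wall n N hn hN y
  obtain ⟨V, i₀, i₁, r, hC, h0, h1, hr0, hr1⟩ := hg.hyperbolize m M hm hM f
  obtain ⟨k, t, hk⟩ := isHNN i₀ i₁ h0 h1
  obtain ⟨hPD, hF, hs⟩ := hg.glue m f i₀ i₁ r k t hm hM hC hk
  obtain ⟨R, hR, -⟩ := hk.desc M r 1 (map_one _) (fun x => by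
    have h2 := DFunLike.congr_fun (congrArg OGrp.Hom.f hr0) x
    have h3 := DFunLike.congr_fun (congrArg OGrp.Hom.f hr1) x
    change r.f (i₀.f x) = 1 * r.f (i₁.f x) * 1⁻¹
    change r.f (i₀.f x) = x at h2
    change r.f (i₁.f x) = x at h3
    rw [h2, h3]
    group)
  have hret : (i₀ ≫ k) ≫ R = 𝟙 M := by
    rw [Category.assoc, hR, hr0]
  refine ⟨m + 1, _, by omega, hPD, hF, ⟨⟨rM.i ≫ i₀ ≫ k, R ≫ rM.r, ?_⟩⟩, ?_⟩
  · have h4 : (rM.i ≫ i₀ ≫ k) ≫ R ≫ rM.r = rM.i ≫ ((i₀ ≫ k) ≫ R) ≫ rM.r := by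
      simp only [Category.assoc]
    rw [h4, hret, Category.id_comp, rM.retract]
  · intro hAnr
    have hs0 : g.s (m + 1) _ = 0 := (hg.total (m + 1) _ (by omega) hPD hF).1 hAnr
    rw [hs] at hs0
    apply hy
    rw [← hφ, ← hA.exact_L, ← hinv]
    have h5 := congrArg (S.map (m + 1) R).f hs0
    have h6 : S.map (m + 1) R (S.map (m + 1) (i₀ ≫ k) (g.inv m M f)) = g.inv m M f := by
      rw [← S.map_comp, hret, S.map_id]
    exact h6.symm.trans (h5.trans (hm_zero _))

/-- If `A` is not surjective, then there is a Poincaré duality group which is not the fundamental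
group of a closed aspherical homology manifold. -/
theorem local_form (hA : Assembly F e A q b) {g : Geometry S} (hg : Known F A q g)
    (X : OGrp) (hX : F X.G) (n : ℤ) (hn : ¬ Surjective (A.app n X)) :
    ∃ (m : ℤ) (P : OGrp), 6 ≤ m ∧ g.PD m P ∧ F P.G ∧ Nonempty (Retract X P) ∧ ¬ g.Anr m P := by
  obtain ⟨n₀, hd⟩ := hg.davis X hX
  obtain ⟨k, hk⟩ : ∃ k : ℕ, max n₀ 5 ≤ n + 4 * k - 1 :=
    ⟨(max n₀ 5 + 1 - n).toNat, by omega⟩
  obtain ⟨N, hN, ⟨r⟩⟩ := hd (n + 4 * k - 1) (by omega)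
  have hNF := (hg.pd_mfd _ N hN).2
  have h1 : ¬ Surjective (A.app (n + 4 * k - 1 + 1) N) := by
    intro h2
    rw [sub_add_cancel] at h2
    apply hn
    have h3 := surj_shift hA hNF n k h2
    intro y
    obtain ⟨x, hx⟩ := h3 (L.map n r.i y)
    refine ⟨h.map n r.r x, ?_⟩
    have h4 := A.nat n r.r x
    exact h4.trans ((congrArg _ hx).trans (map_retract L r n y))
  rw [Function.Surjective, not_forall] at h1
  obtain ⟨y, hy⟩ := h1
  obtain ⟨m, P, hm, hP, hPF, ⟨r'⟩, hnot⟩ := detect hg (n + 4 * k - 1) (by omega) hN y hy hA.cofibre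
  exact ⟨m, P, hm, hP, hPF, ⟨r.trans r'⟩, hnot⟩

end Main

/-- Let the assembly map `A` satisfy the known facts `Assembly` and let `g` be the geometry of
manifolds, with the known facts `Known`. (1) `A` is an isomorphism for all Poincaré duality groups
if and only if every Poincaré duality group of dimension at least 6 with a finite classifying space
is, after product with some `ℤ^k`, the fundamental group of a closed aspherical ANR homology
manifold. (2) If `A` is not surjective in some degree for a group `X` with a finite classifying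
space, then `X` is a retract of a Poincaré duality group without this property. -/
theorem result (F : (G : Type) → [Group G] → Prop) (e h L S : Fun.{u}) (A : Trans h L)
    (q : Trans L S) (b : ∀ n X, Hm (S.obj (n + 1) X) (h.obj n X)) (g : Geometry S)
    (hA : Assembly F e A q b) (hg : Known F A q g) :
    ((∀ n X, g.PD n X → Iso A X) ↔ ∀ n X, 6 ≤ n → g.PD n X → F X.G → g.Anr n X) ∧
    ∀ X : OGrp, F X.G → (∃ n, ¬ Surjective (A.app n X)) →
      ∃ (m : ℤ) (P : OGrp), 6 ≤ m ∧ g.PD m P ∧ F P.G ∧ Nonempty (Retract X P) ∧ ¬ g.Anr m P := by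
  refine ⟨⟨fun H n X hn hX hF => ?_, fun H n X hX => ?_⟩, ?_⟩
  · exact (hg.total n X hn hX hF).2 (S_zero hA.cofibre (H n X hX) n _)
  · have hsurj : ∀ Y : OGrp, F Y.G → ∀ m, Surjective (A.app m Y) := by
      intro Y hY m
      by_contra hm
      obtain ⟨m, P, hm, hP, hPF, -, hnot⟩ := local_form hA hg Y hY m hm
      exact hnot (H m P hm hP hPF)
    have hS : ∀ (m : ℤ) (Y : OGrp), F Y.G → ∀ s : S.obj m Y, s = 0 := by
      intro m Y hY s
      obtain ⟨Z, φ, hZ, hφ, hq⟩ := embed hA hY m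
      obtain ⟨y, hy⟩ := hq s
      apply hφ
      rw [← hy, hA.cofibre.exact_L]
      exact hsurj Z hZ _ y
    obtain ⟨P, hP, ⟨r⟩⟩ := hg.pd_retract n X hX
    intro m
    constructor
    · refine hm_inj _ fun x hx => ?_
      have h1 : A.app m P (h.map m r.i x) = 0 := by
        rw [A.nat, hx, hm_zero]
      obtain ⟨s, hs⟩ := (hA.cofibre.exact_h m P _).1 h1
      rw [hS _ P hP s, hm_zero] at hs
      rw [← map_retract h r m x, ← hs, hm_zero]
    · intro y
      obtain ⟨x, hx⟩ := hsurj P hP m (L.map m r.i y)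
      refine ⟨h.map m r.r x, ?_⟩
      exact (A.nat m r.r x).trans ((congrArg _ hx).trans (map_retract L r m y))
  · rintro X hX ⟨n, hn⟩
    exact local_form hA hg X hX n hn

end Pool.Agent.Results.MP_c13a79_gt.ManifoldExistence
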