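import Pool.Agent.H17.L0.QR
import Pool.Agent.H88.L0.Asm

/-!
MP_c13a79_gt: `L`-groups of integral and of real group rings. For every group `π` (in particular for
every Poincaré duality group) with a character `w : π → {1,-1}` the homomorphisms
`L₀(ℤ[π]) → L₀(ℝ[π])` and `L₂(ℤ[π]) → L₂(ℝ[π])` have kernels killed by 64 and cokernels killed
by 16. So the part of the conjecture on the assembly map which is not about the prime 2 is a
statement about quadratic forms over real group algebras.
-/

set_option autoImplicit false

namespace Pool.Agent.Results.MP_c13a79_gt.RealCoefficients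

open Pool.Agent.H17.LTh

universe u

/-- For every group `π`, every homomorphism `w : π → {1,-1}` and `ε = 1` or `ε = -1`, the
homomorphism `L₀^ε(ℤ[π]) → L₀^ε(ℝ[π])` of the groups of stable isometry classes of nonsingular
`ε`-quadratic forms on free modules of finite rank has kernel killed by 64 and cokernel killed
by 16. -/
theorem result (π : Type u) [Group π] (w : π →* ℤˣ) (ε : ℤˣ) :
    (∀ x : L0 (GR ℤ π w) ε, L0.co (Int.castRingHom ℝ) x = 0 → 64 • x = 0) ∧
    (∀ y : L0 (GR ℝ π w) ε, ∃ x : L0 (GR ℤ π w) ε, L0.co (Int.castRingHom ℝ) x = 16 • y) :=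
  Pool.Agent.H88.L0.asm (fun y => qr_surj y) (fun x h => qr_inj x h)

end Pool.Agent.Results.MP_c13a79_gt.RealCoefficients
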