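import Pool.Agent.H16.UN.HBc
import Pool.Agent.H5.UR.Fin

/-!
MP_c13a79_gt: Cappell's unitary nilpotent groups vanish for amalgams and HNN extensions over
poly-infinite-cyclic subgroups `C`, for arbitrary vertex groups without elements of order two (no
square root condition on `C`, no hypothesis on the vertex groups). The proof is surgery on the
kernels of the nilpotent forms, which is never obstructed because `ℤ[C]` is Auslander regular; this
last fact is proved too.
-/

set_option autoImplicit false

namespace Pool.Agent.Results.MP_c13a79_gt.SplittingsOverPolyZ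

open Pool.Agent.H16.UN Pool.Agent.H17.LTh

/-- Let `G` be a group without elements of order two, `w : G → {1, -1}` a homomorphism, and let `G`
contain the amalgam `A *_C B` (then `V = ∅`) or the HNN extension of `A` with stable letter `t` and
`C = A ∩ t A t⁻¹` (then `B = t A t⁻¹`, `V = A t⁻¹`), where `C = A ∩ B` is poly-infinite-cyclic. Then for
every nilpotent unilateral quadratic form `F` of degree `m` over `ℤ[C]` (complexes `X`, `Y` of based
f.g. free `ℤ[C]`-modules, dual to each other by a pairing `P`, quadratic structures `ψ₁` on `X` with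
values in `ℤ[A ∖ C]`, `ψ₂` on `Y` with values in `ℤ[B ∖ C]` and a closed form `κ` on `X × Y` with values in
`ℤ[V]`) the quadratic Poincare complex `ℤ[G] ⊗ (X ⊕ Y)` with the structure `[[ψ₁, P + κ],[0, ψ₂]]` is
zero in the group `L_m(ℤ[G])`. -/
theorem result (G : Type) [Group G] (w : G →* ℤˣ) (A B : Subgroup G) (V : Set G)
    (hS : Splits A B V) (hC : PolyZ (A ⊓ B : Subgroup G)) (h2 : ∀ g : G, g * g = 1 → g = 1)
    (m : ℤ) (F : SForm w A B V m) (hF : F.Nilpotent) : LZero F.total :=
  SForm.zero hS (Pool.Agent.H5.UR.good_polyZ _ hC _) h2 F hF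

end Pool.Agent.Results.MP_c13a79_gt.SplittingsOverPolyZ
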